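import Pool.Agent.V5helper46.SQ.Lower

/-!
# MP_0a44cb_nt: badly approximable `α` for which `{n² α}` is not Poissonian

Negative answer to Q1, for badly approximable numbers, among them all the numbers
`∑ b ^ (-2 ^ j)`, `b ≥ 2`, and continuum many numbers in every interval.
-/

set_option autoImplicit false

namespace Pool.Agent.Results.MP_0a44cb_nt.BadlyApproximable

open Filter Topology Pool.Agent.V5helper46.SQ

/-- `x_n = {n² α}`, the fractional part of `n² α`. -/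
noncomputable def x (α : ℝ) (n : ℕ) : ℝ := Int.fract ((n : ℝ) ^ 2 * α)

/-- The `k`-level correlation `R_k(f, N)` of `{n² α}` for `k = d + 1` and `f : ℝ^d → ℝ`:
`(1/N)` times the sum over pairwise distinct `n_0, …, n_d ∈ {1, …, N}` and over `m ∈ ℤ^d` of
`f (N (x_{n_0} - x_{n_1} + m_0), …, N (x_{n_{d-1}} - x_{n_d} + m_{d-1}))`. -/
noncomputable def corr (d N : ℕ) (α : ℝ) (f : (Fin d → ℝ) → ℝ) : ℝ :=
  (1 / (N : ℝ)) *
    ∑ n ∈ (Fintype.piFinset fun _ : Fin (d + 1) => Finset.Icc 1 N).filter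
        (fun n => Function.Injective n),
      ∑' m : Fin d → ℤ,
        f fun i => (N : ℝ) * (x α (n i.castSucc) - x α (n i.succ) + (m i : ℝ))

/-- `{n² α}` is Poissonian as `N → ∞` through all integers: for every `k = d + 1 ≥ 2` and every
continuous compactly supported `f : ℝ^d → ℝ`, `R_k(f, N)` tends to the integral of `f`. -/
def Poissonian (α : ℝ) : Prop :=
  ∀ d : ℕ, 1 ≤ d → ∀ f : (Fin d → ℝ) → ℝ, Continuous f → HasCompactSupport f →
    Tendsto (fun N : ℕ => corr d N α f) atTop (𝓝 (∫ y, f y))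

/-- `α` is of type `κ`. -/
def IsOfType (κ α : ℝ) : Prop :=
  ∃ C : ℝ, 0 < C ∧ ∀ a q : ℤ, 1 ≤ q → IsCoprime a q →
    C * (q : ℝ) ^ (-κ) ≤ |α - (a : ℝ) / (q : ℝ)|

/-- The assertion of Q1. -/
def Question : Prop :=
  ∀ α : ℝ, Irrational α → (∃ κ : ℝ, κ < 3 ∧ IsOfType κ α) → Poissonian α

/-- `α` is irrational and badly approximable: `|α - a / q| ≥ C / q ^ 2` for all `a` and `q ≥ 1`. -/
def Bad (α : ℝ) : Prop :=
  Irrational α ∧ ∃ C : ℝ, 0 < C ∧ ∀ a q : ℤ, 1 ≤ q → C / (q : ℝ) ^ 2 ≤ |α - (a : ℝ) / (q : ℝ)|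

/-- The failure of the Poissonian behaviour of the `k`-level correlations, `k = d + 1 ≥ 4`:
(1) for all `d` and all nonnegative `f` with `f(0) > 0` one has
`R_{d+1}(f, N) ≥ c N ^ ((d + 1) / 4 - 1)` for infinitely many `N`, with some `c > 0`;
(2) for each `K` there is a nonnegative `f` with positive integral and `R_4(f, N) ≥ K ∫ f` for
infinitely many `N`;
(3) for all `d ≥ 3` there is a nonnegative `f` for which `R_{d+1}(f, N)` does not tend to
`∫ f`. -/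
def Fails (α : ℝ) : Prop :=
  (∀ (d : ℕ) (f : (Fin d → ℝ) → ℝ), Continuous f → HasCompactSupport f →
    (∀ y, 0 ≤ f y) → 0 < f 0 →
    ∃ c : ℝ, 0 < c ∧ ∃ᶠ N : ℕ in atTop, c * (N : ℝ) ^ (((d : ℝ) + 1) / 4 - 1) ≤ corr d N α f) ∧
  (∀ K : ℝ, ∃ f : (Fin 3 → ℝ) → ℝ, Continuous f ∧ HasCompactSupport f ∧
    (∀ y, 0 ≤ f y) ∧ 0 < ∫ y, f y ∧ ∃ᶠ N : ℕ in atTop, K * ∫ y, f y ≤ corr 3 N α f) ∧
  (∀ d : ℕ, 3 ≤ d → ∃ f : (Fin d → ℝ) → ℝ, Continuous f ∧ HasCompactSupport f ∧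
    (∀ y, 0 ≤ f y) ∧ ¬ Tendsto (fun N : ℕ => corr d N α f) atTop (𝓝 (∫ y, f y)))

lemma corr_eq (d N : ℕ) (α : ℝ) (f : (Fin d → ℝ) → ℝ) :
    corr d N α f = Pool.Agent.Results.MP_ba281e_nt.NoPoissonSubseq.corr d N α f := rfl

/-- a small box on which `f ≥ f(0)/2` -/
lemma box (d : ℕ) (f : (Fin d → ℝ) → ℝ) (hf : Continuous f) (h0 : 0 < f 0) :
    ∃ δ : ℝ, 0 < δ ∧ δ ≤ 1 ∧ ∀ y : Fin d → ℝ, (∀ i, |y i| ≤ δ) → f 0 / 2 ≤ f y := by
  have h1 : ∀ᶠ y in 𝓝 (0 : Fin d → ℝ), f 0 / 2 < f y :=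
    hf.continuousAt.eventually (lt_mem_nhds (by linarith))
  obtain ⟨ε, hε, h2⟩ := Metric.eventually_nhds_iff.mp h1
  refine ⟨min (ε / 2) 1, by positivity, min_le_right _ _, ?_⟩
  intro y hy
  refine (h2 ?_).le
  rw [dist_zero_right]
  have h3 : ‖y‖ ≤ min (ε / 2) 1 :=
    (pi_norm_le_iff_of_nonneg (by positivity)).mpr (fun i => by simpa using hy i)
  have h4 := min_le_left (ε / 2) 1
  linarith

/-- growth along a sequence -/
lemma growth (D : Dat) (d : ℕ) (f : (Fin d → ℝ) → ℝ) (hf : Continuous f)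
    (hc : HasCompactSupport f) (hf0 : ∀ y, 0 ≤ f y) (h0 : 0 < f 0) :
    ∃ c : ℝ, 0 < c ∧ ∃ᶠ N : ℕ in atTop,
      c * (N : ℝ) ^ (((d : ℝ) + 1) / 4 - 1) ≤ corr d N D.alpha f := by
  obtain ⟨δ, hδ0, hδ1, hδ⟩ := box d f hf h0
  refine ⟨f 0 / 2 * (δ / (16 * ((d : ℝ) + 1) ^ 4)) ^ (((d : ℝ) + 1) / 4), by positivity, ?_⟩
  rw [frequently_atTop]
  intro B
  obtain ⟨N, h1, h2, h3⟩ := lower D d f hf0 hc δ (f 0 / 2) hδ0 hδ1 (by positivity) hδ B
  exact ⟨N, h1, h3⟩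

/-- the test function `max (0, 2 - ‖y‖_∞)` -/
noncomputable def bump (d : ℕ) (y : Fin d → ℝ) : ℝ := max 0 (2 - ‖y‖)

lemma bump_continuous (d : ℕ) : Continuous (bump d) := by
  unfold bump; fun_prop

lemma bump_nonneg (d : ℕ) (y : Fin d → ℝ) : 0 ≤ bump d y := le_max_left _ _

lemma bump_compact (d : ℕ) : HasCompactSupport (bump d) := by
  refine HasCompactSupport.of_support_subset_isCompact (isCompact_closedBall 0 2) ?_
  intro y hy
  rw [Function.mem_support] at hy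
  rw [mem_closedBall_zero_iff]
  by_contra h
  push Not at h
  exact hy (max_eq_left (by linarith))

lemma bump_zero (d : ℕ) : 0 < bump d 0 := by unfold bump; simp

lemma bump_int : 0 < ∫ y, bump 3 y := by
  refine (bump_continuous 3).integral_pos_of_hasCompactSupport_nonneg_nonzero (bump_compact 3)
    (fun y => bump_nonneg 3 y) (x := 0) ?_
  exact (bump_zero 3).ne'

/-- the four-level correlation -/
lemma four (D : Dat) (K : ℝ) :
    ∃ f : (Fin 3 → ℝ) → ℝ, Continuous f ∧ HasCompactSupport f ∧ (∀ y, 0 ≤ f y) ∧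
      0 < ∫ y, f y ∧ ∃ᶠ N : ℕ in atTop, K * ∫ y, f y ≤ corr 3 N D.alpha f := by
  set I : ℝ := ∫ y, bump 3 y with hI
  have hI0 : 0 < I := bump_int
  -- choice of `δ`
  set δ : ℝ := min 1 (1 / (4096 * ((|K| + 1) * I))) with hδ
  have hδ0 : 0 < δ := by positivity
  have hδ1 : δ ≤ 1 := min_le_left _ _
  have hδ2 : δ * ((|K| + 1) * I) ≤ 1 / 4096 := by
    have h1 : δ ≤ 1 / (4096 * ((|K| + 1) * I)) := min_le_right _ _
    rw [le_div_iff₀ (by positivity)] at h1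
    linarith
  set f : (Fin 3 → ℝ) → ℝ := fun y => bump 3 (δ⁻¹ • y) with hf
  have hfc : Continuous f := (bump_continuous 3).comp (continuous_const_smul _)
  have hfs : HasCompactSupport f :=
    (bump_compact 3).comp_homeomorph (Homeomorph.smulOfNeZero δ⁻¹ (inv_ne_zero hδ0.ne'))
  have hint : ∫ y, f y = δ ^ 3 * I := by
    have h1 := MeasureTheory.Measure.integral_comp_smul
      (MeasureTheory.volume : MeasureTheory.Measure (Fin 3 → ℝ)) (bump 3) δ⁻¹
    rw [hf, h1, hI]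
    simp only [Module.finrank_fintype_fun_eq_card, Fintype.card_fin, smul_eq_mul, inv_pow, inv_inv]
    rw [abs_of_pos (by positivity)]
  have hbox : ∀ y : Fin 3 → ℝ, (∀ i, |y i| ≤ δ) → 1 ≤ f y := by
    intro y hy
    have h1 : ‖y‖ ≤ δ := (pi_norm_le_iff_of_nonneg hδ0.le).mpr (fun i => by simpa using hy i)
    have h2 : ‖δ⁻¹ • y‖ ≤ 1 := by
      rw [norm_smul, norm_inv, Real.norm_eq_abs, abs_of_pos hδ0]
      rw [inv_mul_le_iff₀ hδ0]
      linarith
    show 1 ≤ max 0 (2 - ‖δ⁻¹ • y‖)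
    exact le_trans (by linarith) (le_max_right _ _)
  refine ⟨f, hfc, hfs, fun y => bump_nonneg 3 _, by rw [hint]; positivity, ?_⟩
  rw [frequently_atTop]
  intro B
  obtain ⟨N, h1, h2, h3⟩ := lower D 3 f (fun y => bump_nonneg 3 _) hfs δ 1 hδ0 hδ1 zero_le_one
    hbox B
  refine ⟨N, h1, le_trans ?_ h3⟩
  have e1 : (((3 : ℕ) : ℝ) + 1) / 4 - 1 = 0 := by norm_num
  have e2 : (((3 : ℕ) : ℝ) + 1) / 4 = 1 := by norm_num
  rw [e1, e2, Real.rpow_zero, Real.rpow_one, mul_one, one_mul, hint]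
  have h4 : K ≤ |K| + 1 := by linarith [le_abs_self K]
  have h5 : K * (δ ^ 3 * I) ≤ (|K| + 1) * (δ ^ 3 * I) :=
    mul_le_mul_of_nonneg_right h4 (by positivity)
  have h6 : (|K| + 1) * (δ ^ 3 * I) = δ ^ 2 * (δ * ((|K| + 1) * I)) := by ring
  have h7 : δ ^ 2 * (δ * ((|K| + 1) * I)) ≤ δ ^ 2 * (1 / 4096) :=
    mul_le_mul_of_nonneg_left hδ2 (by positivity)
  have h8 : δ ^ 2 ≤ δ := by nlinarith
  have h9 : δ / (16 * (((3 : ℕ) : ℝ) + 1) ^ 4) = δ * (1 / 4096) := by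
    push_cast
    ring
  rw [h9]
  linarith [mul_le_mul_of_nonneg_right h8 (by norm_num : (0 : ℝ) ≤ 1 / 4096)]

lemma fails (D : Dat) : Fails D.alpha := by
  refine ⟨growth D, four D, ?_⟩
  intro d hd
  rcases Nat.lt_or_ge d 4 with h | h
  · obtain rfl : d = 3 := by omega
    obtain ⟨f, h1, h2, h3, h4, h5⟩ := four D 2
    refine ⟨f, h1, h2, h3, ?_⟩
    intro ht
    have h6 : ∀ᶠ N : ℕ in atTop, corr 3 N D.alpha f < 2 * ∫ y, f y :=
      ht.eventually_lt_const (by linarith)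
    obtain ⟨N, h7, h8⟩ := (h5.and_eventually h6).exists
    linarith
  · refine ⟨bump d, bump_continuous d, bump_compact d, bump_nonneg d, ?_⟩
    obtain ⟨c, hc0, hc⟩ := growth D d (bump d) (bump_continuous d) (bump_compact d)
      (bump_nonneg d) (bump_zero d)
    intro ht
    have h6 : ∀ᶠ N : ℕ in atTop, corr d N D.alpha (bump d) < (∫ y, bump d y) + 1 :=
      ht.eventually_lt_const (by linarith)
    have hdR : (4 : ℝ) ≤ d := by exact_mod_cast h
    have h7 : Tendsto (fun N : ℕ => c * (N : ℝ) ^ (((d : ℝ) + 1) / 4 - 1)) atTop atTop :=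
      ((tendsto_rpow_atTop (by linarith)).comp tendsto_natCast_atTop_atTop).const_mul_atTop hc0
    have h8 := h7.eventually_ge_atTop ((∫ y, bump d y) + 1)
    obtain ⟨N, h9, h10, h11⟩ := (hc.and_eventually (h6.and h8)).exists
    linarith

lemma bad (D : Dat) : Bad D.alpha := by
  have hK : (0 : ℝ) < D.K := by have := D.K_ge; exact_mod_cast (by linarith : 0 < D.K)
  refine ⟨D.irrational, 1 / (D.K : ℝ), by positivity, ?_⟩
  intro a q hq
  have h := D.bad q a (by omega)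
  rwa [div_div]

/-- a badly approximable number is of type `κ` for all `κ ≥ 2` -/
lemma Bad.isOfType {α : ℝ} (h : Bad α) (κ : ℝ) (hκ : 2 ≤ κ) : IsOfType κ α := by
  obtain ⟨_, C, hC, h2⟩ := h
  refine ⟨C, hC, ?_⟩
  intro a q hq _
  refine le_trans ?_ (h2 a q hq)
  have hqR : (1 : ℝ) ≤ q := by exact_mod_cast hq
  rw [div_eq_mul_inv]
  apply mul_le_mul_of_nonneg_left _ hC.le
  rw [← Real.rpow_natCast, ← Real.rpow_neg (by linarith)]
  exact Real.rpow_le_rpow_of_exponent_le hqR (by push_cast; linarith)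

/-- the numbers `∑ b ^ (-2 ^ j)` -/
lemma explicit (b : ℕ) (hb : 2 ≤ b) :
    ∃ D : Dat, D.alpha = ∑' j : ℕ, 1 / (b : ℝ) ^ 2 ^ j := by
  have hbZ : (2 : ℤ) ≤ b := by exact_mod_cast hb
  have hcop : IsCoprime ((b : ℤ) + 1) (b : ℤ) := ⟨1, -1, by ring⟩
  let D : Dat := ⟨b, b + 1, fun _ => true, hbZ, hcop⟩
  refine ⟨D, ?_⟩
  have hbR : (0 : ℝ) < b := by positivity
  have hterm : ∀ j, D.term j = 1 / (b : ℝ) ^ 2 ^ (j + 2) := by
    intro j
    have h1 : D.sg j = 1 := rfl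
    have h2 : D.q (j + 1) = (b : ℤ) ^ 2 ^ (j + 2) := rfl
    unfold Dat.term
    rw [h1, h2]
    push_cast
    rfl
  have hs : Summable (fun j : ℕ => 1 / (b : ℝ) ^ 2 ^ j) := by
    rw [← summable_nat_add_iff 2]
    have := D.summable_term
    refine this.congr ?_
    intro j
    exact hterm j
  have h3 := hs.sum_add_tsum_nat_add 2
  rw [← h3]
  unfold Dat.alpha
  have h4 : ∑' j, D.term j = ∑' j : ℕ, 1 / (b : ℝ) ^ 2 ^ (j + 2) := tsum_congr hterm
  rw [h4]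
  congr 1
  have h5 : (D.a : ℝ) = (b : ℝ) + 1 := by
    show (((b : ℤ) + 1 : ℤ) : ℝ) = (b : ℝ) + 1
    push_cast
    ring
  have h6 : (D.b : ℝ) = (b : ℝ) := by
    show (((b : ℤ) : ℤ) : ℝ) = (b : ℝ)
    push_cast
    ring
  rw [h5, h6]
  simp only [Finset.sum_range_succ, Finset.sum_range_zero, zero_add, pow_zero, pow_one]
  field_simp

/-- every interval contains continuum many of the numbers `D.alpha` -/
lemma dense (u v : ℝ) (huv : u < v) :
    ∃ S : Set ℝ, S ⊆ Set.Ioo u v ∧ Cardinal.mk S = Cardinal.continuum ∧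
      ∀ α ∈ S, ∃ D : Dat, D.alpha = α := by
  obtain ⟨b0, hb0⟩ := exists_nat_gt (2 / (v - u))
  have hvu : 0 < v - u := by linarith
  set b : ℕ := b0 + 2 with hb
  have hb2 : (2 : ℤ) ≤ (b : ℤ) := by omega
  have hbR : (2 : ℝ) ≤ b := by exact_mod_cast hb2
  have hbl : 2 / (b : ℝ) < v - u := by
    rw [div_lt_iff₀ (by linarith)]
    rw [div_lt_iff₀ hvu] at hb0
    have : (b0 : ℝ) ≤ b := by rw [hb]; push_cast; linarith
    nlinarith
  set m : ℤ := ⌊u * b⌋ + 1 with hm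
  have hm1 : u * b < m := by rw [hm]; push_cast; exact Int.lt_floor_add_one _
  have hm2 : (m : ℝ) ≤ u * b + 1 := by
    rw [hm]; push_cast
    have := Int.floor_le (u * b)
    linarith
  have hcop : IsCoprime (1 + (b : ℤ) * m) (b : ℤ) := ⟨1, -m, by ring⟩
  let DD : (ℕ → Bool) → Dat := fun e => ⟨b, 1 + b * m, e, hb2, hcop⟩
  have hinj : Function.Injective (fun e => (DD e).alpha) := by
    intro e e' h
    exact alpha_inj (DD e) (DD e') rfl rfl h
  refine ⟨Set.range (fun e => (DD e).alpha), ?_, ?_, ?_⟩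
  · rintro _ ⟨e, rfl⟩
    show (DD e).alpha ∈ Set.Ioo u v
    have h := (DD e).tail 0
    have hq1 : ((DD e).q (0 + 1) : ℝ) = (b : ℝ) ^ 4 := by
      have : (DD e).q (0 + 1) = (b : ℤ) ^ 2 ^ (0 + 1 + 1) := rfl
      rw [this]
      push_cast
      norm_num
    have hq0 : ((DD e).q 0 : ℝ) = (b : ℝ) ^ 2 := by
      have : (DD e).q 0 = (b : ℤ) ^ 2 ^ (0 + 1) := rfl
      rw [this]
      push_cast
      norm_num
    have hp0 : ((DD e).p 0 : ℝ) = 1 + b * m := by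
      have : (DD e).p 0 = 1 + (b : ℤ) * m := rfl
      rw [this]
      push_cast
      ring
    rw [hq1, hq0, hp0] at h
    have e1 : (1 + (b : ℝ) * m) / (b : ℝ) ^ 2 = 1 / (b : ℝ) ^ 2 + m / b := by
      field_simp
    rw [e1] at h
    have h4 : 2 / (b : ℝ) ^ 4 ≤ 1 / 2 * (1 / (b : ℝ) ^ 2) := by
      have h5 : (4 : ℝ) ≤ (b : ℝ) ^ 2 := by nlinarith
      have : 1 / 2 * (1 / (b : ℝ) ^ 2) = (b : ℝ) ^ 2 / 2 / (b : ℝ) ^ 4 := by
        field_simp
      rw [this]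
      exact div_le_div_of_nonneg_right (by linarith) (by positivity)
    have h6 : 0 < 1 / (b : ℝ) ^ 2 := by positivity
    have h7 : u < (m : ℝ) / b := by rw [lt_div_iff₀ (by linarith)]; exact hm1
    have h8 : (m : ℝ) / b ≤ u + 1 / b := by
      have : (m : ℝ) / b ≤ (u * b + 1) / b := div_le_div_of_nonneg_right hm2 (by linarith)
      refine this.trans (le_of_eq ?_)
      field_simp
    have h9 : 1 / (b : ℝ) ^ 2 ≤ 1 / 2 * (1 / b) := by
      rw [div_mul_div_comm, div_le_div_iff₀ (by positivity) (by positivity)]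
      nlinarith
    have h10 : 2 / (b : ℝ) = 2 * (1 / b) := by ring
    rw [abs_le] at h
    constructor
    · linarith [h.1]
    · rw [h10] at hbl
      linarith [h.2]
  · rw [Cardinal.mk_range_eq _ hinj]
    simp
  · rintro _ ⟨e, rfl⟩
    exact ⟨DD e, rfl⟩

/-- **Theorem.** The answer to Q1 is no, even for badly approximable numbers (which are of type
`κ` for all `κ ≥ 2`, see `Bad.isOfType`): for `α = ∑ b ^ (-2 ^ j)`, `b ≥ 2`, and for continuum many
badly approximable `α` in every interval, the `k`-level correlations of `{n² α}` are not Poissonian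
for `k ≥ 4`. -/
theorem result :
    ¬ Question ∧
    (∀ b : ℕ, 2 ≤ b → Bad (∑' j : ℕ, 1 / (b : ℝ) ^ 2 ^ j) ∧ Fails (∑' j : ℕ, 1 / (b : ℝ) ^ 2 ^ j)) ∧
    (∀ u v : ℝ, u < v → ∃ S : Set ℝ, S ⊆ Set.Ioo u v ∧ Cardinal.mk S = Cardinal.continuum ∧
      ∀ α ∈ S, Bad α ∧ Fails α) := by
  refine ⟨?_, ?_, ?_⟩
  · intro hQ
    obtain ⟨D, hD⟩ := explicit 2 le_rfl
    obtain ⟨f, h1, h2, _, h3⟩ := (fails D).2.2 3 le_rfl
    exact h3 (hQ D.alpha D.irrational ⟨2, by norm_num, (bad D).isOfType 2 le_rfl⟩ 3 (by norm_num)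
      f h1 h2)
  · intro b hb
    obtain ⟨D, hD⟩ := explicit b hb
    rw [← hD]
    exact ⟨bad D, fails D⟩
  · intro u v huv
    obtain ⟨S, h1, h2, h3⟩ := dense u v huv
    refine ⟨S, h1, h2, ?_⟩
    intro α hα
    obtain ⟨D, rfl⟩ := h3 α hα
    exact ⟨bad D, fails D⟩

end Pool.Agent.Results.MP_0a44cb_nt.BadlyApproximable
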